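import Pool.Agent.Helper74.DR.St

/-!
# Project DR: the module SPR (right spines)
-/

set_option autoImplicit false

namespace Pool.Agent.Helper84.DR

open Pool.Agent.Helper74.DR

variable {α V : Type} {L : V → Set (List α)}

theorem nil_SPR (h0 : ∀ X, [] ∉ L X) {Z Y : V} {w : List α} (h : RS L Z Y w) (hw : w = []) :
    Z = Y := by
  cases h with
  | refl => rfl
  | step _ B Z' _ w₁ w₂ hm h1 h2 =>
    exfalso
    rw [List.append_eq_nil_iff] at hw
    rw [hw.1] at h1
    exact h0 _ h1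

theorem snoc_SPR {X Z' : V} {m : List α} (h : RS L X Z' m) : ∀ (B Y : V) (b : List α),
    (∀ u ∈ L B, ∀ v ∈ L Y, u ++ v ∈ L Z') → b ∈ L B → RS L X Y (m ++ b) := by
  induction h with
  | refl X =>
    intro B Y b hm hb
    have h1 := RS.step X B Y Y b [] hm hb (RS.refl Y)
    rw [List.append_nil] at h1
    exact h1
  | step X B₁ Z Z' w₁ w₂ hm₁ h1 _ ih =>
    intro B Y b hm hb
    rw [List.append_assoc]
    exact RS.step X B₁ Z Y w₁ (w₂ ++ b) hm₁ h1 (ih B Y b hm hb)

theorem last_SPR (h0 : ∀ X, [] ∉ L X) {X Y : V} {w : List α} (h : RS L X Y w) : w ≠ [] →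
    ∃ B Z' b m, w = m ++ b ∧ b ∈ L B ∧ (∀ u ∈ L B, ∀ v ∈ L Y, u ++ v ∈ L Z') ∧ RS L X Z' m := by
  induction h with
  | refl X => exact fun h => absurd rfl h
  | step X B Z Y w₁ w₂ hm h1 h2 ih =>
    intro _
    by_cases hw : w₂ = []
    · obtain rfl : Z = Y := nil_SPR h0 h2 hw
      exact ⟨B, X, w₁, [], by rw [hw]; simp, h1, hm, RS.refl X⟩
    · obtain ⟨B₂, Z', b, m, rfl, hb, hm2, hr⟩ := ih hw
      exact ⟨B₂, Z', b, w₁ ++ m, by simp, hb, hm2, RS.step X B Z Z' w₁ m hm h1 hr⟩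

theorem two_SPR (hB : BS L) : ∀ (n : ℕ) (b : α) (w : List α) (X : V), w.length = n →
    w ++ [b] ∈ L X → ∃ Q, [b] ∈ L Q ∧ RS L X Q w := by
  intro n
  induction n using Nat.strong_induction_on with
  | _ n ih =>
    intro b w X hn h
    rcases Nat.eq_zero_or_pos w.length with hw | hw
    · have hw' : w = [] := List.length_eq_zero_iff.1 hw
      subst hw'
      exact ⟨X, h, RS.refl X⟩
    · obtain ⟨Y, Z, u, v, he, hu, hv, hm⟩ := hB.2 X (w ++ [b]) h (by simp; omega)
      have hv0 : v ≠ [] := fun h1 => hB.1 Z (h1 ▸ hv)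
      have hu0 : u ≠ [] := fun h1 => hB.1 Y (h1 ▸ hu)
      obtain ⟨v', b', rfl⟩ : ∃ v' b', v = v' ++ [b'] :=
        ⟨v.dropLast, v.getLast hv0, (List.dropLast_append_getLast hv0).symm⟩
      rw [← List.append_assoc] at he
      have he1 := List.append_inj' he rfl
      obtain ⟨rfl, h2⟩ := he1
      simp only [List.cons.injEq, and_true] at h2
      subst h2
      have hl : v'.length < n := by
        rw [← hn, List.length_append]
        have := List.length_pos_iff.2 hu0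
        omega
      obtain ⟨Q, hQ, hr⟩ := ih v'.length hl b v' Z rfl hv
      exact ⟨Q, hQ, RS.step X Y Z Q u v' hm hu hr⟩

theorem one_SPR {X Y : V} {w : List α} (h : RS L X Y w) : ∀ u ∈ L Y, w ++ u ∈ L X := by
  induction h with
  | refl X => exact fun u hu => hu
  | step X B Z Y w₁ w₂ hm h1 _ ih =>
    intro u hu
    rw [List.append_assoc]
    exact hm w₁ h1 _ (ih u hu)

theorem hSPR : StSPR := by
  intro α V L hB
  refine ⟨fun X Y w h => one_SPR h, fun b w X h => two_SPR hB _ b w X rfl h, ?_⟩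
  intro X Y w h hw
  cases h with
  | refl => exact absurd rfl hw
  | step _ B Z _ w₁ w₂ hm h1 h2 =>
    by_cases hw2 : w₂ = []
    · left
      obtain rfl : Z = Y := nil_SPR hB.1 h2 hw2
      refine ⟨B, by rw [hw2, List.append_nil]; exact h1, ?_⟩
      intro v hv
      have h3 := RS.step X B Z Z v [] hm hv (RS.refl Z)
      rw [List.append_nil] at h3
      exact h3
    · right
      obtain ⟨B₂, Z', b, m, rfl, hb, hm2, hr⟩ := last_SPR hB.1 h2 hw2
      exact ⟨B, Z, Z', B₂, w₁, m, b, rfl, h1, hr, hb, fun v₁ hv₁ v₂ hv₂ v₃ hv₃ =>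
        RS.step X B Z Y v₁ (v₂ ++ v₃) hm hv₁ (snoc_SPR hv₂ B₂ Y v₃ hm2 hv₃)⟩

end Pool.Agent.Helper84.DR
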